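import Pool.Agent.U167.SA.Stm8

/-!
Project SA (helper167), package SUM (helper600): the deterministic double sums.
With `q j = (j+1)^(-2/3)` one has `fb n k l ≤ 8 q |k-l| + q (n-1-k) + q (n-1-l)`, and
`∑_{j<n} q j ≤ 3 n^(1/3)`.
-/

set_option autoImplicit false

namespace Pool.Agent.U600.SA

open Finset Pool.Agent.U167.SA

/-- `(j+1)^(-2/3)` -/
noncomputable def q (j : ℕ) : ℝ := ((j:ℝ)+1)^(-((2:ℝ)/3))

/-- `(j+1)^(-1/3)` -/
noncomputable def p (j : ℕ) : ℝ := ((j:ℝ)+1)^(-((1:ℝ)/3))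

lemma q_nonneg (j : ℕ) : 0 ≤ q j := by unfold q; positivity

lemma p_nonneg (j : ℕ) : 0 ≤ p j := by unfold p; positivity

lemma p_sq (j : ℕ) : p j * p j = q j := by
  unfold p q
  have h : (0:ℝ) < (j:ℝ) + 1 := by positivity
  rw [← Real.rpow_add h]
  norm_num

lemma q_anti {i j : ℕ} (h : i ≤ j) : q j ≤ q i := by
  unfold q
  apply Real.rpow_le_rpow_of_nonpos (by positivity) (by
    have : (i:ℝ) ≤ j := by exact_mod_cast h
    linarith) (by norm_num)

lemma q_step (j : ℕ) : q j ≤ 3 * (((j:ℝ)+1)^((1:ℝ)/3) - (j:ℝ)^((1:ℝ)/3)) := by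
  have hj : (0:ℝ) ≤ j := by positivity
  have hj1 : (0:ℝ) < (j:ℝ) + 1 := by positivity
  set a : ℝ := ((j:ℝ)+1)^((1:ℝ)/3) with ha
  set b : ℝ := (j:ℝ)^((1:ℝ)/3) with hb
  have ha0 : 0 < a := Real.rpow_pos_of_pos hj1 _
  have hb0 : 0 ≤ b := Real.rpow_nonneg hj _
  have ha3 : a^3 = (j:ℝ) + 1 := by
    rw [ha, ← Real.rpow_natCast, ← Real.rpow_mul hj1.le]; norm_num
  have hb3 : b^3 = (j:ℝ) := by
    rw [hb, ← Real.rpow_natCast, ← Real.rpow_mul hj]; norm_num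
  have hba : b ≤ a := Real.rpow_le_rpow hj (by linarith) (by norm_num)
  have hq : q j * a^2 = 1 := by
    have : a^2 = ((j:ℝ)+1)^((2:ℝ)/3) := by
      rw [ha, ← Real.rpow_natCast, ← Real.rpow_mul hj1.le]; norm_num
    rw [this]; unfold q
    rw [← Real.rpow_add hj1]; norm_num
  have key : 1 ≤ 3 * (a - b) * a^2 := by
    have h1 : (a - b) * (a^2 + a*b + b^2) = 1 := by
      have : (a - b) * (a^2 + a*b + b^2) = a^3 - b^3 := by ring
      rw [this, ha3, hb3]; ring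
    have h2 : a^2 + a*b + b^2 ≤ 3 * a^2 := by nlinarith
    nlinarith [mul_le_mul_of_nonneg_left h2 (sub_nonneg.2 hba)]
  have ha2 : 0 < a^2 := by positivity
  have : q j * a^2 ≤ 3 * (a - b) * a^2 := by rw [hq]; exact key
  exact le_of_mul_le_mul_right this ha2

lemma sum_q (n : ℕ) : ∑ j ∈ range n, q j ≤ 3 * (n:ℝ)^((1:ℝ)/3) := by
  induction n with
  | zero => simp
  | succ n ih =>
    rw [Finset.sum_range_succ]
    have := q_step n
    push_cast
    linarith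

lemma sum_abs (f : ℕ → ℝ) (hf : ∀ j, 0 ≤ f j) (n k : ℕ) (hk : k < n) :
    ∑ l ∈ range n, f ((k:ℤ) - l).natAbs ≤ 2 * ∑ j ∈ range n, f j := by
  obtain ⟨m, rfl⟩ : ∃ m, n = (k + 1) + m := ⟨n - (k+1), by omega⟩
  rw [Finset.sum_range_add]
  have h1 : ∑ l ∈ range (k+1), f ((k:ℤ) - l).natAbs = ∑ j ∈ range (k+1), f j := by
    rw [← Finset.sum_range_reflect f (k+1)]
    apply Finset.sum_congr rfl
    intro l hl
    have := Finset.mem_range.1 hl
    congr 1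
    omega
  have h2 : ∑ l ∈ range m, f ((k:ℤ) - ((k + 1 + l : ℕ) : ℤ)).natAbs =
      ∑ j ∈ range m, f (j+1) := by
    apply Finset.sum_congr rfl
    intro l hl
    congr 1
    push_cast
    omega
  rw [h1, h2]
  have h3 : ∑ j ∈ range (k+1), f j ≤ ∑ j ∈ range (k + 1 + m), f j := by
    apply Finset.sum_le_sum_of_subset_of_nonneg
    · intro x hx; simp only [Finset.mem_range] at *; omega
    · intro i _ _; exact hf i
  have h4 : ∑ j ∈ range m, f (j+1) ≤ ∑ j ∈ range (k + 1 + m), f j := by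
    have : ∑ j ∈ range (m+1), f j = ∑ j ∈ range m, f (j+1) + f 0 := Finset.sum_range_succ' f m
    have h5 : ∑ j ∈ range (m+1), f j ≤ ∑ j ∈ range (k + 1 + m), f j := by
      apply Finset.sum_le_sum_of_subset_of_nonneg
      · intro x hx; simp only [Finset.mem_range] at *; omega
      · intro i _ _; exact hf i
    have := hf 0
    linarith
  linarith

lemma sum_cut (f : ℕ → ℝ) (hf : ∀ j, 0 ≤ f j) (n M : ℕ) :
    ∑ j ∈ range n, (if j < M then f j else 0) ≤ ∑ j ∈ range M, f j := by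
  rw [← Finset.sum_filter]
  apply Finset.sum_le_sum_of_subset_of_nonneg
  · intro x hx; simp only [Finset.mem_filter, Finset.mem_range] at *; exact hx.2
  · intro i _ _; exact hf i

lemma p_min (a b : ℕ) : p (min a b) ≤ p a + p b := by
  rcases le_total a b with h | h
  · rw [min_eq_left h]; linarith [p_nonneg b]
  · rw [min_eq_right h]; linarith [p_nonneg a]

lemma q_half (d : ℕ) (hd : 2 ≤ d) : q ((d - 2) / 2) ≤ 4 * q d := by
  unfold q
  have h : ((d:ℝ) + 1) / 4 ≤ (((d - 2) / 2 : ℕ) : ℝ) + 1 := by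
    have h0 : d + 1 ≤ 4 * ((d-2)/2 + 1) := by omega
    have h1 : ((d + 1 : ℕ) : ℝ) ≤ ((4 * ((d-2)/2 + 1) : ℕ) : ℝ) := by exact_mod_cast h0
    push_cast at h1
    have h2 : (((d - 2) / 2 : ℕ) : ℝ) = (((d-2)/2 : ℕ) : ℝ) := rfl
    linarith
  have hd0 : (0:ℝ) < (d:ℝ) + 1 := by positivity
  calc ((((d - 2) / 2 : ℕ) : ℝ) + 1)^(-((2:ℝ)/3)) ≤ (((d:ℝ) + 1) / 4)^(-((2:ℝ)/3)) := by
        apply Real.rpow_le_rpow_of_nonpos (by positivity) h (by norm_num)
    _ = ((d:ℝ) + 1)^(-((2:ℝ)/3)) * ((1/4:ℝ))^(-((2:ℝ)/3)) := by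
        rw [← Real.mul_rpow hd0.le (by norm_num)]; congr 1; ring
    _ ≤ ((d:ℝ) + 1)^(-((2:ℝ)/3)) * 4 := by
        apply mul_le_mul_of_nonneg_left _ (by positivity)
        have : ((1/4:ℝ))^(-((2:ℝ)/3)) ≤ ((1/4:ℝ))^(-(1:ℝ)) :=
          Real.rpow_le_rpow_of_exponent_ge (by norm_num) (by norm_num) (by norm_num)
        refine this.trans (le_of_eq ?_)
        rw [Real.rpow_neg (by norm_num)]; norm_num
    _ = 4 * ((d:ℝ) + 1)^(-((2:ℝ)/3)) := by ring

lemma fb_le (n k l : ℕ) :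
    fb n k l ≤ 8 * q ((k:ℤ) - l).natAbs + q (n - 1 - k) + q (n - 1 - l) := by
  unfold fb
  split_ifs with h
  · have h1 : ((k:ℤ) - l).natAbs ≤ 1 := by
      rw [Int.abs_eq_natAbs] at h; omega
    have h2 := q_anti h1
    have h3 : (1:ℝ)/2 ≤ q 1 := by
      unfold q
      have : ((2:ℝ))^(-(1:ℝ)) ≤ (2:ℝ)^(-((2:ℝ)/3)) :=
        Real.rpow_le_rpow_of_exponent_le (by norm_num) (by norm_num)
      rw [Real.rpow_neg_one] at this
      norm_num at this ⊢
      exact this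
    have h4 := q_nonneg (n - 1 - k)
    have h5 := q_nonneg (n - 1 - l)
    linarith
  · have hd : 2 ≤ ((k:ℤ) - l).natAbs := by
      rw [Int.abs_eq_natAbs] at h; omega
    set d := ((k:ℤ) - l).natAbs with hdd
    have h1 := p_min ((d-2)/2) (n-1-k)
    have h2 := p_min ((d-2)/2) (n-1-l)
    have h3 := q_half d hd
    have e1 := p_sq ((d-2)/2)
    have e2 := p_sq (n-1-k)
    have e3 := p_sq (n-1-l)
    have n1 := p_nonneg ((d-2)/2)
    have n2 := p_nonneg (n-1-k)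
    have n3 := p_nonneg (n-1-l)
    have n4 := p_nonneg (min ((d-2)/2) (n-1-k))
    have n5 := p_nonneg (min ((d-2)/2) (n-1-l))
    have h6 : p (min ((d-2)/2) (n-1-k)) * p (min ((d-2)/2) (n-1-l)) ≤
        (p ((d-2)/2) + p (n-1-k)) * (p ((d-2)/2) + p (n-1-l)) :=
      mul_le_mul h1 h2 n5 (by linarith)
    refine le_trans (le_of_eq rfl) (le_trans h6 ?_)
    nlinarith [sq_nonneg (p ((d-2)/2) - p (n-1-k)), sq_nonneg (p ((d-2)/2) - p (n-1-l)),
      sq_nonneg (p (n-1-k) - p (n-1-l))]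

lemma sum_rev (f : ℕ → ℝ) (n : ℕ) : ∑ k ∈ range n, f (n - 1 - k) = ∑ k ∈ range n, f k :=
  Finset.sum_range_reflect f n

/-- sum of a function of the three distances -/
lemma sum3 (f : ℕ → ℝ) (hf : ∀ j, 0 ≤ f j) (n : ℕ) (a b : ℝ) (ha : 0 ≤ a) (hb : 0 ≤ b) :
    ∑ k ∈ range n, ∑ l ∈ range n,
      (a * f ((k:ℤ) - l).natAbs + b * f (n - 1 - k) + b * f (n - 1 - l)) ≤
      (2 * a + 2 * b) * (n * ∑ j ∈ range n, f j) := by
  have h1 : ∀ k ∈ range n, ∑ l ∈ range n,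
      (a * f ((k:ℤ) - l).natAbs + b * f (n - 1 - k) + b * f (n - 1 - l)) ≤
      (2 * a + b) * ∑ j ∈ range n, f j + n * (b * f (n - 1 - k)) := by
    intro k hk
    rw [Finset.sum_add_distrib, Finset.sum_add_distrib,
      ← Finset.mul_sum (range n) (fun l => f ((k:ℤ) - l).natAbs) a,
      ← Finset.mul_sum (range n) (fun l => f (n - 1 - l)) b, sum_rev f n]
    have := sum_abs f hf n k (Finset.mem_range.1 hk)
    have h2 := mul_le_mul_of_nonneg_left this ha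
    simp only [Finset.sum_const, Finset.card_range, nsmul_eq_mul]
    linarith
  refine (Finset.sum_le_sum h1).trans (le_of_eq ?_)
  rw [Finset.sum_add_distrib, ← Finset.mul_sum (range n) (fun k => b * f (n - 1 - k)) (n:ℝ),
    ← Finset.mul_sum (range n) (fun k => f (n - 1 - k)) b, sum_rev f n]
  simp only [Finset.sum_const, Finset.card_range, nsmul_eq_mul]
  ring

lemma n43 (n : ℕ) : (n:ℝ) * (n:ℝ)^((1:ℝ)/3) = (n:ℝ)^((4:ℝ)/3) := by
  rcases Nat.eq_zero_or_pos n with rfl | h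
  · norm_num
  · have hn : (0:ℝ) < n := by exact_mod_cast h
    have : (n:ℝ) * (n:ℝ)^((1:ℝ)/3) = (n:ℝ)^(1:ℝ) * (n:ℝ)^((1:ℝ)/3) := by rw [Real.rpow_one]
    rw [this, ← Real.rpow_add hn]; norm_num

theorem part1 : ∃ C : ℝ, 0 ≤ C ∧ ∀ n : ℕ,
    ∑ k ∈ range n, ∑ l ∈ range n, fb n k l ≤ C * (n:ℝ)^((4:ℝ)/3) := by
  refine ⟨54, by norm_num, fun n => ?_⟩
  have h1 : ∑ k ∈ range n, ∑ l ∈ range n, fb n k l ≤ ∑ k ∈ range n, ∑ l ∈ range n,
      (8 * q ((k:ℤ) - l).natAbs + 1 * q (n - 1 - k) + 1 * q (n - 1 - l)) := by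
    apply Finset.sum_le_sum; intro k _; apply Finset.sum_le_sum; intro l _
    have := fb_le n k l
    linarith
  have h2 := sum3 q q_nonneg n 8 1 (by norm_num) (by norm_num)
  have h3 := mul_le_mul_of_nonneg_left (sum_q n) (Nat.cast_nonneg (α := ℝ) n)
  have h4 : (n:ℝ) * (3 * (n:ℝ)^((1:ℝ)/3)) = 3 * (n:ℝ)^((4:ℝ)/3) := by rw [← n43]; ring
  rw [h4] at h3
  linarith

/-- the indicator of a bad pair is at most the sum of the five indicators -/
lemma bad_le (s n k l M : ℕ) (δ : ℝ) (hM : δ * n + s + 1 ≤ M) (hk : k < n) (hl : l < n)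
    (hb : (rh s n k l : ℝ) < δ * n) :
    (1:ℝ) ≤ (if k < M then (1:ℝ) else 0) + (if l < M then (1:ℝ) else 0) +
      ((if n - 1 - k < M then (1:ℝ) else 0) + (if n - 1 - l < M then (1:ℝ) else 0)) +
      (if ((k:ℤ) - l).natAbs < M then (1:ℝ) else 0) := by
  have key : k < M ∨ l < M ∨ n - 1 - k < M ∨ n - 1 - l < M ∨ ((k:ℤ) - l).natAbs < M := by
    by_contra hc
    push Not at hc
    obtain ⟨c1, c2, c3, c4, c5⟩ := hc
    have : (M:ℤ) - s - 1 ≤ rh s n k l := by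
      unfold rh
      have e5 : |(k:ℤ) - l| = (((k:ℤ) - l).natAbs : ℤ) := Int.abs_eq_natAbs _
      rw [e5]
      refine le_min (le_min ?_ ?_) (le_min (le_min ?_ ?_) ?_) <;> omega
    have h2 : (M:ℝ) - s - 1 ≤ (rh s n k l : ℝ) := by exact_mod_cast this
    linarith
  have i0 : ∀ P : Prop, [Decidable P] → (0:ℝ) ≤ (if P then (1:ℝ) else 0) := by
    intro P _; split_ifs <;> norm_num
  have a1 := i0 (k < M)
  have a2 := i0 (l < M)
  have a3 := i0 (n - 1 - k < M)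
  have a4 := i0 (n - 1 - l < M)
  have a5 := i0 (((k:ℤ) - l).natAbs < M)
  rcases key with h | h | h | h | h
  · rw [if_pos h] at *; linarith
  · rw [if_pos h] at *; linarith
  · rw [if_pos h] at *; linarith
  · rw [if_pos h] at *; linarith
  · rw [if_pos h] at *; linarith

lemma q_cut (j M : ℕ) : q j ≤ (if j < M then q j else 0) + q M := by
  split_ifs with h
  · linarith [q_nonneg M]
  · have := q_anti (not_lt.1 h); linarith

theorem part2core (s n M : ℕ) (δ : ℝ) (hM : δ * n + s + 1 ≤ M) (hM1 : 1 ≤ M) :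
    ∑ k ∈ range n, ∑ l ∈ range n, (if (rh s n k l : ℝ) < δ * n then fb n k l else 0) ≤
      114 * (n * (M:ℝ)^((1:ℝ)/3)) := by
  set w : ℕ → ℝ := fun j => if j < M then q j else 0 with hw
  set i : ℕ → ℝ := fun j => if j < M then 1 else 0 with hi
  have hw0 : ∀ j, 0 ≤ w j := by intro j; simp only [hw]; split_ifs; exacts [q_nonneg j, le_rfl]
  have hi0 : ∀ j, 0 ≤ i j := by intro j; simp only [hi]; split_ifs; exacts [zero_le_one, le_rfl]
  have h1 : ∑ k ∈ range n, ∑ l ∈ range n, (if (rh s n k l : ℝ) < δ * n then fb n k l else 0) ≤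
      ∑ k ∈ range n, ∑ l ∈ range n,
        ((8 * w ((k:ℤ) - l).natAbs + 1 * w (n - 1 - k) + 1 * w (n - 1 - l)) +
        10 * q M * (1 * i ((k:ℤ) - l).natAbs + 1 * i (n - 1 - k) + 1 * i (n - 1 - l)) +
        10 * q M * (i k + i l)) := by
    apply Finset.sum_le_sum; intro k hk; apply Finset.sum_le_sum; intro l hl
    have hk' := Finset.mem_range.1 hk
    have hl' := Finset.mem_range.1 hl
    have qM := q_nonneg M
    split_ifs with hb
    · have b := bad_le s n k l M δ hM hk' hl' hb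
      have f := fb_le n k l
      have c1 := q_cut ((k:ℤ) - l).natAbs M
      have c2 := q_cut (n - 1 - k) M
      have c3 := q_cut (n - 1 - l) M
      have b' : (1:ℝ) ≤ i k + i l + (i (n - 1 - k) + i (n - 1 - l)) + i ((k:ℤ) - l).natAbs := b
      have c1' : q ((k:ℤ) - l).natAbs ≤ w ((k:ℤ) - l).natAbs + q M := c1
      have c2' : q (n - 1 - k) ≤ w (n - 1 - k) + q M := c2
      have c3' : q (n - 1 - l) ≤ w (n - 1 - l) + q M := c3
      have b2 := mul_le_mul_of_nonneg_left b' (by linarith : (0:ℝ) ≤ 10 * q M)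
      linarith
    · have := hw0 ((k:ℤ) - l).natAbs
      have := hw0 (n - 1 - k)
      have := hw0 (n - 1 - l)
      have := hi0 ((k:ℤ) - l).natAbs
      have := hi0 (n - 1 - k)
      have := hi0 (n - 1 - l)
      have := hi0 k
      have := hi0 l
      positivity
  have qM := q_nonneg M
  have h2 := sum3 w hw0 n 8 1 (by norm_num) (by norm_num)
  have h3 := sum3 i hi0 n 1 1 (by norm_num) (by norm_num)
  have h4 : ∑ k ∈ range n, ∑ l ∈ range n, (i k + i l) = 2 * (n * ∑ j ∈ range n, i j) := by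
    simp only [Finset.sum_add_distrib, Finset.sum_const, Finset.card_range, nsmul_eq_mul]
    rw [← Finset.mul_sum]; ring
  have h5 : ∑ j ∈ range n, w j ≤ 3 * (M:ℝ)^((1:ℝ)/3) :=
    (sum_cut q q_nonneg n M).trans (sum_q M)
  have h6 : ∑ j ∈ range n, i j ≤ M := by
    have := sum_cut (fun _ => (1:ℝ)) (fun _ => zero_le_one) n M
    rw [Finset.sum_const, Finset.card_range, nsmul_eq_mul, mul_one] at this
    exact this
  have h7 : q M * M ≤ (M:ℝ)^((1:ℝ)/3) := by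
    have hMp : (0:ℝ) < M := by exact_mod_cast hM1
    have : q M ≤ (M:ℝ)^(-((2:ℝ)/3)) := by
      unfold q
      exact Real.rpow_le_rpow_of_nonpos hMp (by linarith) (by norm_num)
    calc q M * M ≤ (M:ℝ)^(-((2:ℝ)/3)) * (M:ℝ)^(1:ℝ) := by
          rw [Real.rpow_one]; exact mul_le_mul_of_nonneg_right this hMp.le
      _ = (M:ℝ)^((1:ℝ)/3) := by rw [← Real.rpow_add hMp]; norm_num
  have hn : (0:ℝ) ≤ n := Nat.cast_nonneg n
  have h8 := mul_le_mul_of_nonneg_left h5 hn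
  have h9 := mul_le_mul_of_nonneg_left h6 hn
  have h10 := mul_le_mul_of_nonneg_left h9 qM
  have h11 := mul_le_mul_of_nonneg_left h7 hn
  have h12 := mul_le_mul_of_nonneg_left h3 (by linarith : (0:ℝ) ≤ 10 * q M)
  refine h1.trans ?_
  simp only [Finset.sum_add_distrib, ← Finset.mul_sum] at h2 h3 h4 h12 ⊢
  nlinarith [h2, h4, h8, h9, h10, h11, h12]

theorem part2 (s : ℕ) (ε : ℝ) (hε : 0 < ε) : ∃ (δ : ℝ) (N : ℕ), 0 < δ ∧ ∀ n : ℕ, N ≤ n →
      ∑ k ∈ range n, ∑ l ∈ range n, (if (rh s n k l : ℝ) < δ * n then fb n k l else 0) ≤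
        ε * (n:ℝ)^((4:ℝ)/3) := by
  -- `114 * (2δ)^(1/3) = ε`
  set δ : ℝ := (ε / 114)^3 / 2 with hδ
  have hδ0 : 0 < δ := by positivity
  obtain ⟨N, hN⟩ := exists_nat_ge (((s:ℝ) + 3) / δ)
  refine ⟨δ, N, hδ0, fun n hn => ?_⟩
  have hnN : (N:ℝ) ≤ n := by exact_mod_cast hn
  have h1 : (s:ℝ) + 3 ≤ δ * n := by
    have : ((s:ℝ) + 3) / δ ≤ n := hN.trans hnN
    rw [div_le_iff₀ hδ0] at this
    linarith
  set M : ℕ := ⌈δ * n⌉₊ + s + 1 with hM
  have h2 : δ * n ≤ ⌈δ * n⌉₊ := Nat.le_ceil _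
  have h3 : (⌈δ * n⌉₊ : ℝ) < δ * n + 1 := Nat.ceil_lt_add_one (by positivity)
  have h4 : δ * n + s + 1 ≤ (M:ℝ) := by rw [hM]; push_cast; linarith
  have h5 : (M:ℝ) ≤ 2 * δ * n := by rw [hM]; push_cast; linarith
  refine (part2core s n M δ h4 (by omega)).trans ?_
  have hn0 : (0:ℝ) ≤ n := Nat.cast_nonneg n
  have h6 : (M:ℝ)^((1:ℝ)/3) ≤ (2 * δ)^((1:ℝ)/3) * (n:ℝ)^((1:ℝ)/3) := by
    rw [← Real.mul_rpow (by positivity) hn0]
    exact Real.rpow_le_rpow (by positivity) h5 (by norm_num)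
  have h7 : (2 * δ)^((1:ℝ)/3) = ε / 114 := by
    rw [hδ, show 2 * ((ε / 114)^3 / 2) = (ε/114)^3 by ring, ← Real.rpow_natCast,
      ← Real.rpow_mul (by positivity)]
    norm_num
  rw [h7] at h6
  calc 114 * ((n:ℝ) * (M:ℝ)^((1:ℝ)/3)) ≤ 114 * ((n:ℝ) * (ε / 114 * (n:ℝ)^((1:ℝ)/3))) := by
        apply mul_le_mul_of_nonneg_left _ (by norm_num)
        exact mul_le_mul_of_nonneg_left h6 hn0
    _ = ε * ((n:ℝ) * (n:ℝ)^((1:ℝ)/3)) := by ring
    _ = ε * (n:ℝ)^((4:ℝ)/3) := by rw [n43]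

/-- **SUM** -/
theorem t_SUM : SumStm := ⟨part1, part2⟩

end Pool.Agent.U600.SA
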